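import Pool.Agent.Helper87_UT.Stmts

set_option autoImplicit false

/-!
# UT, module RED: correctness of the reduction
-/

namespace Pool.Agent.UT.H18

open Finset
open Pool.Agent.Helper76_Bisect
open Pool.Agent.Common_CookLevin (CNF)

theorem getD_flatMap (m : ℕ) (f : ℕ → ℕ → Bool) (d : Bool) (v : ℕ) (hv : v < m) :
    ∀ k u : ℕ, u < k →
      ((List.range k).flatMap fun u => (List.range m).map fun v => f u v).getD (u * m + v) d =
        f u v := by
  intro k
  induction k with
  | zero => intro u hu; omega
  | succ k ih =>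
    intro u hu
    have hlen : ((List.range k).flatMap fun u => (List.range m).map fun v => f u v).length =
        k * m := by
      simp [List.length_flatMap]
    rw [List.range_succ, List.flatMap_append]
    by_cases h : u < k
    · rw [List.getD_append _ _ _ _ (by
        rw [hlen]
        have : (u + 1) * m ≤ k * m := Nat.mul_le_mul_right _ h
        rw [add_mul, one_mul] at this
        omega)]
      exact ih u h
    · have hu' : u = k := by omega
      subst hu'
      rw [List.getD_append_right _ _ _ _ (by rw [hlen]; omega), hlen]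
      simp [hv]

theorem red (hG : GatStmt) (hB : BisStmt) (hP : ParStmt) (hU : UniStmt) : RedStmt := by
  intro ρ lam h0 h1 h7 hl F
  obtain ⟨hs, ht, P⟩ := hP ρ lam h0 h1 h7 hl F
  obtain ⟨H, hH, hA⟩ := hB F
  obtain ⟨e, he⟩ := hU F (LN lam F) (2 ^ muN lam F) (DN (fun n => ⌊ρ * n⌋₊) lam F)
    (2 ^ sN lam F) H P.hL P.hM P.hn hH
  obtain ⟨hy, hn⟩ := base_answer P e H
  refine ⟨baseGraph (LN lam F) (2 ^ muN lam F) (DN (fun n => ⌊ρ * n⌋₊) lam F) e H, ?_, hs, ht,
    ?_, ?_⟩
  · intro u v
    unfold matN
    rw [getD_flatMap (2 ^ sN lam F) (fun u v => decide (u = v) ||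
      unitN F (LN lam F) (2 ^ muN lam F) (DN (fun n => ⌊ρ * n⌋₊) lam F) u v) false v.val v.isLt
      (2 ^ sN lam F) u.val u.isLt]
    rw [Bool.or_eq_true, decide_eq_true_eq]
    by_cases huv : u = v
    · subst huv
      simp
    · rw [he u v huv]
      constructor
      · rintro (h | h)
        · exact Or.inl (Fin.ext h)
        · exact Or.inr h
      · rintro (h | h)
        · exact absurd h huv
        · exact Or.inr h
  · intro hsat
    obtain ⟨S, hS1, hS2⟩ := hy (hA.mpr ((hG F).2.mp hsat))
    refine ⟨S, hS1, ?_⟩
    have := hS2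
    push_cast at this
    exact this
  · intro hsat A hA2
    have := hn (fun h => hsat ((hG F).2.mpr (hA.mp h))) A hA2
    push_cast at this
    exact this

end Pool.Agent.UT.H18
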