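import Pool.Agent.Helper87_UT.Stmts

set_option autoImplicit false

/-!
# UT, module UNI: the numbering of the units
-/

namespace Pool.Agent.UT.H18

open Finset
open Pool.Agent.Helper76_Bisect
open Pool.Agent.Common_CookLevin (CNF)

/-- the unit with number `u` -/
def uf (L N M n : ℕ) (hL : 0 < L) (hM : 0 < M) (hn : n = 2 * L + N * M) (u : Fin n) :
    GV L N M :=
  if h : u.val < 2 * L then Sum.inl (decide (L ≤ u.val), ((u.val % L : ℕ) : ZMod L))
  else Sum.inr (⟨(u.val - 2 * L) / M, by
      rw [Nat.div_lt_iff_lt_mul hM]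
      have := u.isLt
      omega⟩, ⟨(u.val - 2 * L) % M, Nat.mod_lt _ hM⟩)

theorem uf_lt {L N M n : ℕ} (hL : 0 < L) (hM : 0 < M) (hn : n = 2 * L + N * M) (u : Fin n)
    (h : u.val < 2 * L) :
    uf L N M n hL hM hn u = Sum.inl (decide (L ≤ u.val), ((u.val % L : ℕ) : ZMod L)) := by
  unfold uf
  rw [dif_pos h]

theorem uf_ge {L N M n : ℕ} (hL : 0 < L) (hM : 0 < M) (hn : n = 2 * L + N * M) (u : Fin n)
    (h : ¬ u.val < 2 * L) :
    uf L N M n hL hM hn u = Sum.inr (⟨(u.val - 2 * L) / M, by
      rw [Nat.div_lt_iff_lt_mul hM]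
      have := u.isLt
      omega⟩, ⟨(u.val - 2 * L) % M, Nat.mod_lt _ hM⟩) := by
  unfold uf
  rw [dif_neg h]

theorem div_two {L u : ℕ} (h : u < 2 * L) : u / L = if L ≤ u then 1 else 0 := by
  have hL : 0 < L := by omega
  split_ifs with h1
  · rw [Nat.div_eq_iff hL]
    omega
  · rw [Nat.div_eq_iff hL]
    omega

theorem cast_mod_inj {L a b : ℕ} (ha : a < L) (hb : b < L)
    (h : ((a : ℕ) : ZMod L) = ((b : ℕ) : ZMod L)) : a = b := by
  rw [ZMod.natCast_eq_natCast_iff'] at h
  rwa [Nat.mod_eq_of_lt ha, Nat.mod_eq_of_lt hb] at h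

theorem mod_eq_sub {L u : ℕ} (h : u < 2 * L) (h1 : L ≤ u) : u % L = u - L := by
  rw [Nat.mod_eq_sub_mod h1, Nat.mod_eq_of_lt (by omega)]

theorem uf_inj {L N M n : ℕ} (hL : 0 < L) (hM : 0 < M) (hn : n = 2 * L + N * M) :
    Function.Injective (uf L N M n hL hM hn) := by
  intro u v huv
  apply Fin.ext
  by_cases hu : u.val < 2 * L
  · by_cases hv : v.val < 2 * L
    · rw [uf_lt hL hM hn u hu, uf_lt hL hM hn v hv] at huv
      have h1 := Sum.inl.inj huv
      have h2 := (Prod.mk.inj h1).1
      have h3 := cast_mod_inj (Nat.mod_lt _ hL) (Nat.mod_lt _ hL) (Prod.mk.inj h1).2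
      rw [decide_eq_decide] at h2
      by_cases h4 : L ≤ u.val
      · have h5 := h2.mp h4
        rw [mod_eq_sub hu h4, mod_eq_sub hv h5] at h3
        omega
      · have h5 : ¬ L ≤ v.val := fun h => h4 (h2.mpr h)
        rw [Nat.mod_eq_of_lt (by omega), Nat.mod_eq_of_lt (by omega)] at h3
        exact h3
    · rw [uf_lt hL hM hn u hu, uf_ge hL hM hn v hv] at huv
      cases huv
  · by_cases hv : v.val < 2 * L
    · rw [uf_ge hL hM hn u hu, uf_lt hL hM hn v hv] at huv
      cases huv
    · rw [uf_ge hL hM hn u hu, uf_ge hL hM hn v hv] at huv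
      have h1 := Sum.inr.inj huv
      have h2 := congrArg Fin.val (Prod.mk.inj h1).1
      have h3 := congrArg Fin.val (Prod.mk.inj h1).2
      simp only at h2 h3
      have h4 := Nat.div_add_mod (u.val - 2 * L) M
      have h5 := Nat.div_add_mod (v.val - 2 * L) M
      rw [h2, h3] at h4
      omega

/-- the numbering -/
noncomputable def ue {L N M n : ℕ} (hL : 0 < L) (hM : 0 < M) (hn : n = 2 * L + N * M) :
    Fin n ≃ GV L N M := by
  haveI : NeZero L := ⟨hL.ne'⟩
  exact Equiv.ofBijective (uf L N M n hL hM hn) (by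
    rw [Fintype.bijective_iff_injective_and_card]
    refine ⟨uf_inj hL hM hn, ?_⟩
    simp only [Fintype.card_fin, Fintype.card_sum, Fintype.card_prod, Fintype.card_bool,
      ZMod.card]
    exact hn)

theorem ue_apply {L N M n : ℕ} (hL : 0 < L) (hM : 0 < M) (hn : n = 2 * L + N * M) (u : Fin n) :
    ue hL hM hn u = uf L N M n hL hM hn u := rfl

theorem val_sub {L a b : ℕ} (hL : 0 < L) (ha : a < L) (hb : b < L) :
    (((b : ℕ) : ZMod L) - ((a : ℕ) : ZMod L)).val = (b + L - a) % L := by
  have : NeZero L := ⟨hL.ne'⟩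
  have h1 : (((b : ℕ) : ZMod L) - ((a : ℕ) : ZMod L)) = ((b + L - a : ℕ) : ZMod L) := by
    rw [Nat.cast_sub (by omega)]
    push_cast
    rw [ZMod.natCast_self]
    ring
  rw [h1, ZMod.val_natCast]

theorem gadget_adj' (L : ℕ) {N : ℕ} (M : ℕ) (H : SimpleGraph (Fin N)) (D : ℕ) (x y : GV L N M) :
    (gadget L M H D).Adj x y ↔ gAdj H D x y := Iff.rfl

theorem uni : UniStmt := by
  intro F L M D n H hL hM hn hH
  refine ⟨ue hL hM hn, ?_⟩
  intro u v huv
  have huv' : u.val ≠ v.val := fun h => huv (Fin.ext h)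
  unfold baseGraph
  rw [SimpleGraph.comap_adj, ue_apply, ue_apply]
  by_cases hu : u.val < 2 * L
  · by_cases hv : v.val < 2 * L
    · rw [uf_lt hL hM hn u hu, uf_lt hL hM hn v hv]
      rw [gadget_adj']
      unfold gAdj unitN
      simp only [hu, hv, if_true, decide_true, Bool.true_and, Bool.or_eq_true, decide_eq_true_eq]
      rw [val_sub hL (Nat.mod_lt _ hL) (Nat.mod_lt _ hL),
        val_sub hL (Nat.mod_lt _ hL) (Nat.mod_lt _ hL), div_two hu, div_two hv]
      have hne : (decide (L ≤ u.val) = decide (L ≤ v.val) ∧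
          ((u.val % L : ℕ) : ZMod L) ≠ ((v.val % L : ℕ) : ZMod L)) ↔
          decide (L ≤ u.val) = decide (L ≤ v.val) := by
        constructor
        · exact fun h => h.1
        · intro h
          refine ⟨h, fun h3 => ?_⟩
          have h4 := cast_mod_inj (Nat.mod_lt _ hL) (Nat.mod_lt _ hL) h3
          rw [decide_eq_decide] at h
          by_cases h5 : L ≤ u.val
          · have h6 := h.mp h5
            rw [mod_eq_sub hu h5, mod_eq_sub hv h6] at h4
            omega
          · have h6 : ¬ L ≤ v.val := fun h' => h5 (h.mpr h')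
            rw [Nat.mod_eq_of_lt (by omega), Nat.mod_eq_of_lt (by omega)] at h4
            exact huv' h4
      rw [hne]
      by_cases h5 : L ≤ u.val <;> by_cases h6 : L ≤ v.val <;> simp [h5, h6]
    · rw [uf_lt hL hM hn u hu, uf_ge hL hM hn v hv]
      rw [gadget_adj']
      unfold gAdj unitN
      simp [hu, hv]
  · by_cases hv : v.val < 2 * L
    · rw [uf_ge hL hM hn u hu, uf_lt hL hM hn v hv]
      rw [gadget_adj']
      unfold gAdj unitN
      have : ¬ 2 * L ≤ v.val := by omega
      simp [hu, this]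
    · rw [uf_ge hL hM hn u hu, uf_ge hL hM hn v hv]
      rw [gadget_adj']
      unfold gAdj unitN
      have hv' : 2 * L ≤ v.val := by omega
      simp only [hu, hv', if_false, decide_true, Bool.true_and, Bool.or_eq_true,
        decide_eq_true_eq, hH, Fin.mk.injEq]
      constructor
      · rintro (h | h)
        · exact Or.inl h.1
        · exact Or.inr h
      · rintro (h | h)
        · by_cases h7 : (u.val - 2 * L) % M = (v.val - 2 * L) % M
          · exfalso
            have h4 := Nat.div_add_mod (u.val - 2 * L) M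
            have h5 := Nat.div_add_mod (v.val - 2 * L) M
            rw [h, h7] at h4
            omega
          · refine Or.inl ⟨h, ?_⟩
            intro h8
            exact h7 (congrArg Fin.val h8)
        · exact Or.inr h

end Pool.Agent.UT.H18
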